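import Pool.Agent.H29.RQ.Targets
import Pool.Agent.H42.RDD.SK1
import Pool.Agent.H3.RD.STK

/-!
# MP_c65535_nt, rows SK1Q and STKQ of the board `rdq_modules`: the Kummer step
-/

set_option autoImplicit false

namespace Pool.Agent.H8.RQ

open Pool.Agent.H29.RQ Pool.Agent.H23.RDD Pool.Agent.H24.RD NumberField Height Finset Polynomial
open Pool.Agent.H42.RDD (inv_ext pow_root_le stE sub_gcd)

theorem pf_SK1Q (hLVB : T_LVB) (hCM : T_CM) (hKEY : T_KEYQ) : T_SK1Q := by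
  intro F Ω _ _ _ _ _ _ _ p hp r γ hγ
  obtain ⟨C, hC⟩ := hKEY F Ω p hp r γ hγ
  refine ⟨C, ?_⟩
  intro n m n1 n2 j d N' K' hL β hβ hcj hred g hg hga hh h hA
  have : IsAlgClosure F Ω := ⟨inferInstance, inferInstance⟩
  have : Normal F Ω := IsAlgClosure.normal F Ω
  have hpn : ∀ k : ℕ, p ^ k ≠ 0 := fun k => pow_ne_zero _ hp.ne_zero
  have h6 := hL.h6
  have h7 := hL.h7
  have hN0 : N' ≠ 0 := by
    rintro rfl
    exact h6 (dvd_zero p)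
  have hK0 : K' ≠ 0 := by
    rintro rfl
    exact hN0 (Nat.eq_zero_of_zero_dvd h7)
  obtain ⟨hfd, hgal, hζ, hθ, hadj, -⟩ := hLVB F Ω r γ hγ (p ^ n * N') (p ^ m * K')
    (Nat.pos_of_ne_zero (mul_ne_zero (pow_ne_zero _ hp.ne_zero) hN0))
    (Nat.pos_of_ne_zero (mul_ne_zero (pow_ne_zero _ hp.ne_zero) hK0))
  obtain ⟨t, htV, ⟨ξ, hξ, htξ⟩, ⟨τ, hτt, hb1⟩, ⟨τ', hτt', hb2⟩⟩ :=
    hC n m n1 n2 j d N' K' hL β hβ hcj hred g hg hga hh (h.liftNormal Ω)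
  set κ : Ω ≃ₐ[F] Ω := h.liftNormal Ω with hκ
  set Q : ℕ := p ^ ((r + 1) * (n - n1) + 1) with hQ
  have hκh : ∀ y : Lv F Ω γ (p ^ n * N') (p ^ m * K'), κ (y : Ω) = (h y : Ω) := fun y =>
    h.liftNormal_commutes Ω y
  -- the exponent
  obtain ⟨ζ0, hζ0⟩ := hζ
  have hζ1 : IsPrimitiveRoot (ζ0 ^ N') (p ^ n) := by
    refine hζ0.pow (Nat.pos_of_ne_zero (mul_ne_zero (hpn n) hN0)) ?_
    ring
  set ζ := ζ0 ^ N' with hζd
  have : NeZero (p ^ n) := ⟨hpn n⟩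
  have htζ : (t ζ) ^ (p ^ n) = 1 := by
    rw [← map_pow, hζ1.pow_eq_one, map_one]
  obtain ⟨u0, -, hu0⟩ := hζ1.eq_pow_of_pow_eq_one htζ
  have hu : ∀ z : Lv F Ω γ (p ^ n * N') (p ^ m * K'), z ^ (p ^ n) = 1 →
      t z = z ^ (u0 + p ^ n) := by
    intro z hz
    obtain ⟨k, -, hk⟩ := hζ1.eq_pow_of_pow_eq_one hz
    rw [pow_add, hz, mul_one, ← hk, map_pow, ← hu0]
    exact pow_right_comm ζ u0 k
  obtain ⟨hCM1, hCM2⟩ := hCM F (Lv F Ω γ (p ^ n * N') (p ^ m * K')) p hp r γ hγ n m n1 N' K'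
    hL.h4 h6 h7 hadj t htV h hA _ hu
  obtain ⟨v, hv⟩ : ∃ v, u0 + p ^ n = v + 1 := ⟨u0 + p ^ n - 1, by
    have := Nat.pos_of_ne_zero (hpn n)
    omega⟩
  rw [hv] at hCM1 hu
  -- the two elements of the group
  have hvT : h ^ v ∈ stE F Ω (Lv F Ω γ (p ^ n * N') (p ^ m * K')) (β ^ Q) := by
    refine ⟨κ⁻¹ * τ' * κ * τ⁻¹, ?_, fun y => ?_⟩
    · have e1 : τ⁻¹ (β ^ Q) = β ^ Q := by
        calc τ⁻¹ (β ^ Q) = τ⁻¹ (τ (β ^ Q)) := by rw [map_pow τ, hb1]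
          _ = β ^ Q := by
            rw [← AlgEquiv.mul_apply, inv_mul_cancel]
            rfl
      have e2 : τ' (κ (β ^ Q)) = κ (β ^ Q) := by
        rw [map_pow κ, map_pow τ', hb2]
      rw [AlgEquiv.mul_apply, e1, AlgEquiv.mul_apply, AlgEquiv.mul_apply, e2,
        ← AlgEquiv.mul_apply, inv_mul_cancel]
      rfl
    · have e0 := inv_ext τ t hτt
      have e0' := inv_ext κ h hκh
      rw [AlgEquiv.mul_apply, e0, AlgEquiv.mul_apply, hκh, AlgEquiv.mul_apply, hτt', e0']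
      have e3 : h ^ v = h⁻¹ * (t * h * t⁻¹) := by
        rw [hCM1, pow_succ']
        group
      rw [e3]
      rfl
  have hmT : h ^ (p ^ m) ∈ stE F Ω (Lv F Ω γ (p ^ n * N') (p ^ m * K')) (β ^ Q) := by
    rw [hCM2]
    exact one_mem _
  have hvn : ¬ p ^ n2 ∣ v := by
    rintro ⟨c, hc⟩
    apply htξ
    have h8 : ξ ^ (p ^ n) = 1 := pow_root_le ξ p n2 n hL.h2 hξ
    have h9 := hu ξ h8
    rw [pow_succ, hc, pow_mul, hξ, one_pow, one_mul] at h9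
    exact h9
  have hgcd : Nat.gcd v (p ^ m) ∣ p ^ (n2 - 1) := by
    obtain ⟨a, ha, hga⟩ := (Nat.dvd_prime_pow hp).1 (Nat.gcd_dvd_right v (p ^ m))
    rw [hga]
    apply pow_dvd_pow
    by_contra hcon
    apply hvn
    have h8 : n2 ≤ a := by omega
    exact (pow_dvd_pow p h8).trans (hga ▸ Nat.gcd_dvd_left v (p ^ m))
  obtain ⟨η, h1, h2⟩ := sub_gcd _ h v (p ^ m) (p ^ (n2 - 1)) hvT hmT hgcd
  refine ⟨η, h2, ?_⟩
  rw [← map_pow]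
  exact h1

theorem pf_STKQ (hSK1 : T_SK1Q) (hTOP : T_TOP) (hSK2 : T_SK2D) : T_STKQ := by
  intro F Ω _ _ _ _ _ _ _ p hp r γ hγ
  obtain ⟨C, hC⟩ := hSK1 F Ω p hp r γ hγ.1
  obtain ⟨c, hc⟩ := hTOP F Ω p hp r γ hγ
  refine ⟨C + c, ?_⟩
  intro n m n1 j d N' K' hd hnm hmn h2r hpN hKN hlog α hα hαh
  obtain ⟨β, hβ0, hβC, hβR, g, hg, rfl⟩ := hα
  obtain ⟨hg0, i, hi, x, hx⟩ := id hg
  have hn1 : 2 ≤ n1 := by omega
  have hlev : LevQ C r p n m n1 (n1 + C + 2 * j) j d N' K' :=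
    ⟨hd, rfl, by omega, by omega, hmn, h2r, hpN, hKN, hlog⟩
  have h2 := hC n m n1 _ j d N' K' hlev β hβ0 hβC hβR g hg0
    ⟨i, ∏ i, γ i ^ x i, hi, by rw [hx, map_prod]; simp only [map_zpow₀]⟩ hαh
  have hrn : (r + 1) * (n - n1) + 1 ≤ n := by
    omega
  have h3 := hSK2 F Ω p hp r γ hγ.1 n m N' K' (p ^ ((r + 1) * (n - n1) + 1)) d (by omega) hmn
    hpN hKN (pow_pos hp.pos _) (Dvd.dvd.mul_right (pow_dvd_pow p hrn) N') β hβ0 hβC hβR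
    (fun h hh => by
      obtain ⟨h', hh', rfl⟩ := hc n m N' K' (by omega) hmn hpN hKN h hh.1 hh.2
      have h4 := h2 (h' ^ (p ^ (m - c - (n1 + C + 2 * j)))) (pow_mem hh' _)
      have e : (h' ^ (p ^ (m - c - (n1 + C + 2 * j)))) ^ (p ^ (n1 + C + 2 * j - 1)) =
          h' ^ (p ^ (m - 1 - c)) := by
        rw [← pow_mul, ← pow_add]
        congr 2
        omega
      rwa [e] at h4)
  obtain ⟨β₁, hβ₁0, hβ₁C, hβ₁R, g₁, hg₁, he⟩ := h3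
  exact ⟨β₁, hβ₁0, hβ₁C, hβ₁R, g₁ * g, Pool.Agent.H3.RD.stk_Dv hγ.1 hg₁ hg, by rw [he, mul_assoc]⟩

end Pool.Agent.H8.RQ
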