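import Pool.Agent.H29.RQ.Targets

/-!
# MP_c65535_nt, row STCQ of the board `rdq_modules`: the cyclotomic step
-/

set_option autoImplicit false

namespace Pool.Agent.H8.RQ

open Pool.Agent.H29.RQ Pool.Agent.H23.RDD Pool.Agent.H24.RD NumberField Height Finset Polynomial

theorem pf_STCQ (hLVB : T_LVB) (hSTCC : T_STCC) (hKEY : T_KEYQ) : T_STCQ := by
  intro F Ω _ _ _ _ _ _ _ p hp r γ hγ
  have : IsAlgClosure F Ω := ⟨inferInstance, inferInstance⟩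
  have : Normal F Ω := IsAlgClosure.normal F Ω
  obtain ⟨C, hkey⟩ := hKEY F Ω p hp r γ hγ
  refine ⟨C, ?_⟩
  rintro n m n1 q d N' K' hd hn2 hmn hn1n h2r hN' hK' hlog α
    ⟨β, hβ, hβM, hRed, g, ⟨hg0, j, hj, x, hgj⟩, rfl⟩ hh
  have hγΩ : ∀ i, algebraMap F Ω (γ i) ≠ 0 := fun i => by
    rw [Ne, map_eq_zero]
    exact hγ i
  have hpn : ∀ k : ℕ, p ^ k ≠ 0 := fun k => pow_ne_zero _ hp.ne_zero
  have hN0 : N' ≠ 0 := by
    rintro rfl
    exact hN' (dvd_zero p)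
  have hK0 : K' ≠ 0 := by
    rintro rfl
    exact hN0 (Nat.eq_zero_of_zero_dvd hK')
  have hRn : n - n1 ≤ (r + 1) * (n - n1) := Nat.le_mul_of_pos_left _ (Nat.succ_pos r)
  have hL : LevQ C r p n n1 n1 (n1 + C + 2 * q) q d N' K' :=
    ⟨hd, rfl, hn2, le_rfl, hn1n.le, h2r, hN', hK', hlog⟩
  have hle : Lv F Ω γ (p ^ n * N') (p ^ m * K') ≤ Lv F Ω γ (p ^ n * N') (p ^ n1 * K') := by
    obtain ⟨-, -, -, -, -, h⟩ := hLVB F Ω r γ hγ (p ^ n * N') (p ^ m * K')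
      (Nat.pos_of_ne_zero (mul_ne_zero (hpn _) hN0)) (Nat.pos_of_ne_zero (mul_ne_zero (hpn _) hK0))
    refine h (p ^ n * N') (p ^ n1 * K') dvd_rfl ?_ ?_
      (Nat.pos_of_ne_zero (mul_ne_zero (hpn _) hN0))
    · exact Nat.mul_dvd_mul (pow_dvd_pow p (by omega)) dvd_rfl
    · exact Nat.mul_dvd_mul (pow_dvd_pow p (by omega)) hK'
  have hβMt : Cj F Ω (Lv F Ω γ (p ^ n * N') (p ^ n1 * K')) d β := by
    obtain ⟨s, hs, hs2⟩ := hβM
    exact ⟨s, hs, fun σ hσ => hs2 σ fun z hz => hσ z (hle hz)⟩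
  have hRedt : Red F Ω (Lv F Ω γ (p ^ n * N') (p ^ n1 * K')) β := fun σ hσ =>
    hRed σ fun z hz => hσ z (hle hz)
  obtain ⟨t, htV, ⟨ξ, hξ, htξ⟩, ⟨τ, hcomm, hβτ⟩, -⟩ := hkey n n1 n1 _ q d N' K' hL β hβ hβMt hRedt
    g hg0 ⟨j, ∏ i, γ i ^ x i, hj, by rw [hgj, map_prod]; simp only [map_zpow₀]⟩ hh 1
  have hgen1 : ∀ y : Ω, y ^ (p ^ n * N') = 1 → y ∈ Lv F Ω γ (p ^ n * N') (p ^ n1 * K') :=
    fun y hy => IntermediateField.subset_adjoin _ _ (Or.inl hy)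
  have hgen2 : ∀ y : Ω, (∃ i, y ^ (p ^ n1 * K') = algebraMap F Ω (γ i)) →
      y ∈ Lv F Ω γ (p ^ n * N') (p ^ n1 * K') :=
    fun y hy => IntermediateField.subset_adjoin _ _ (Or.inr hy)
  have hτ : ∀ y : Ω, (y ^ N' = 1 ∨ y ^ (p ^ n1) = 1 ∨
      (∃ i, y ^ (p ^ n1) = algebraMap F Ω (γ i)) ∨ (∃ i, y ^ K' = algebraMap F Ω (γ i))) →
      τ y = y := by
    intro y hy
    have hyM : y ∈ Lv F Ω γ (p ^ n * N') (p ^ n1 * K') := by
      rcases hy with hy | hy | ⟨i, hy⟩ | ⟨i, hy⟩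
      · apply hgen1
        rw [mul_comm, pow_mul, hy, one_pow]
      · apply hgen1
        have : p ^ n = p ^ n1 * p ^ (n - n1) := by
          rw [← pow_add]
          congr 1
          omega
        rw [this, mul_assoc, pow_mul, hy, one_pow]
      · obtain ⟨z, hz⟩ := IsAlgClosed.exists_pow_nat_eq y (Nat.pos_of_ne_zero hK0)
        rw [← hz]
        apply pow_mem
        apply hgen2
        refine ⟨i, ?_⟩
        rw [mul_comm, pow_mul, hz, hy]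
      · obtain ⟨z, hz⟩ := IsAlgClosed.exists_pow_nat_eq y (Nat.pos_of_ne_zero (hpn n1))
        rw [← hz]
        apply pow_mem
        apply hgen2
        refine ⟨i, ?_⟩
        rw [pow_mul, hz, hy]
    have h1 : t ⟨y, hyM⟩ = ⟨y, hyM⟩ := by
      apply htV
      rcases hy with hy | hy | ⟨i, hy⟩ | ⟨i, hy⟩
      · exact Or.inl ⟨N', hN', Subtype.ext hy⟩
      · exact Or.inr (Or.inl (Subtype.ext hy))
      · exact Or.inr (Or.inr (Or.inl ⟨i, Subtype.ext hy⟩))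
      · exact Or.inr (Or.inr (Or.inr ⟨i, Subtype.ext hy⟩))
    have h2 := hcomm ⟨y, hyM⟩
    rw [h1] at h2
    exact h2
  have hne : ((p ^ n : ℕ) : Ω) ≠ 0 := by exact_mod_cast hpn n
  have : NeZero ((p ^ n : ℕ) : Ω) := ⟨hne⟩
  have : NeZero (p ^ n) := ⟨hpn n⟩
  obtain ⟨ζ, hζ⟩ := HasEnoughRootsOfUnity.exists_primitiveRoot Ω (p ^ n)
  have hτζ : τ ζ ≠ ζ := by
    intro h
    apply htξ
    have e0 : ∀ z : Ω, z ^ (p ^ (n1 + C + 2 * q)) = 1 → z ^ (p ^ n) = 1 := by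
      intro z hz
      have : p ^ n = p ^ (n1 + C + 2 * q) * p ^ (n - (n1 + C + 2 * q)) := by
        rw [← pow_add]
        congr 1
        omega
      rw [this, pow_mul, hz, one_pow]
    have hξ1 : (ξ : Ω) ^ (p ^ n) = 1 := e0 _
      (congrArg (fun z : Lv F Ω γ (p ^ n * N') (p ^ n1 * K') => (z : Ω)) hξ)
    obtain ⟨k, -, hk⟩ := hζ.eq_pow_of_pow_eq_one hξ1
    apply Subtype.ext
    rw [← hcomm ξ, ← hk, map_pow, h]
  obtain ⟨i, hi, hri⟩ := hSTCC F Ω p hp r γ hγ n m n1 (n - n1) ((r + 1) * (n - n1) + 1) N' K'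
    hmn (by omega) hn1n (by omega) (by omega) (by omega) hN' hK' τ hτ ζ hζ hτζ d β hβ hβM hRed hβτ
  have hζ0 : ζ ≠ 0 := hζ.ne_zero (hpn n)
  refine ⟨β / ζ ^ i, div_ne_zero hβ (pow_ne_zero _ hζ0), hi, hri, ζ ^ i * g,
    ⟨mul_ne_zero (pow_ne_zero _ hζ0) hg0, p ^ n * j, Nat.mul_pos (Nat.pos_of_ne_zero (hpn n)) hj,
      fun i => (p ^ n : ℕ) * x i, ?_⟩, ?_⟩
  · have e1 : (ζ ^ i) ^ (p ^ n) = 1 := by
      rw [← pow_mul, mul_comm, pow_mul, hζ.pow_eq_one, one_pow]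
    rw [mul_pow, pow_mul, e1, one_pow, one_mul, mul_comm, pow_mul, hgj, ← Finset.prod_pow]
    apply Finset.prod_congr rfl
    intro l _
    rw [← zpow_natCast, ← zpow_mul, mul_comm]
  · field_simp

end Pool.Agent.H8.RQ
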